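import Pool.Agent.W198.TC.Gau

/-! General lemmas for the sharp cutoff. -/

open Complex Filter Topology Set MeasureTheory
open scoped BigOperators

namespace Pool.Agent.N845.U2

open TC

lemma om_symm (τ H t : ℝ) : om τ H t = om t H τ := by
  unfold om
  congr 2
  ring

/-- weighted count of the points within `h` of `t` -/
noncomputable def cnt (Z : Finset ℂ) (m : ℂ → ℝ) (h t : ℝ) : ℝ :=
  ∑ s ∈ Z, m s * (if |s.im - t| ≤ h then 1 else 0)

lemma cnt_nonneg {Z : Finset ℂ} {m : ℂ → ℝ} (hm : ∀ s, 0 ≤ m s) (h t : ℝ) : 0 ≤ cnt Z m h t := by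
  unfold cnt
  refine Finset.sum_nonneg fun s _ => mul_nonneg (hm s) ?_
  split_ifs <;> norm_num

lemma cnt_le {Z : Finset ℂ} {m : ℂ → ℝ} (hm : ∀ s, 0 ≤ m s) (h t : ℝ) :
    cnt Z m h t ≤ ∑ s ∈ Z, m s := by
  unfold cnt
  refine Finset.sum_le_sum fun s _ => ?_
  have := hm s
  split_ifs <;> simp [this]

lemma ind_int {f : ℝ → ℝ} (hf : Continuous f) (y h c a b : ℝ) :
    IntervalIntegrable (fun t => f t * (c * (if |y - t| ≤ h then 1 else 0))) volume a b := by
  have h1 : IntervalIntegrable (fun t => |f t| * |c|) volume a b :=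
    (hf.abs.mul continuous_const).intervalIntegrable _ _
  apply h1.mono_fun'
  · apply AEStronglyMeasurable.restrict
    apply Measurable.aestronglyMeasurable
    apply hf.measurable.mul
    apply measurable_const.mul
    apply Measurable.ite _ measurable_const measurable_const
    have : Continuous (fun t : ℝ => |y - t|) := by fun_prop
    exact (isClosed_le this continuous_const).measurableSet
  · refine Eventually.of_forall fun t => ?_
    simp only
    rw [Real.norm_eq_abs, abs_mul]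
    apply mul_le_mul_of_nonneg_left _ (abs_nonneg _)
    split_ifs
    · simp
    · simp

lemma cnt_int {f : ℝ → ℝ} (hf : Continuous f) (Z : Finset ℂ) (m : ℂ → ℝ) (h a b : ℝ) :
    IntervalIntegrable (fun t => f t * cnt Z m h t) volume a b := by
  have h1 := IntervalIntegrable.sum (μ := volume) (a := a) (b := b) Z
    (f := fun s t => f t * (m s * (if |s.im - t| ≤ h then 1 else 0)))
    (fun s _ => ind_int hf s.im h (m s) a b)
  have e : (fun t => f t * cnt Z m h t) = ∑ s ∈ Z,
      fun t => f t * (m s * (if |s.im - t| ≤ h then 1 else 0)) := by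
    funext t
    unfold cnt
    rw [Finset.mul_sum, Finset.sum_apply]
  rw [e]
  exact h1

lemma omI_le {H : ℝ} (hH : 0 < H) (t : ℝ) {a b : ℝ} (hab : a ≤ b) :
    ∫ τ in a..b, om τ H t ≤ Real.sqrt (2 * Real.pi) * H := by
  simp_rw [om_symm _ H t]
  rw [intervalIntegral.integral_of_le hab, ← om_integral t H hH]
  exact setIntegral_le_integral (om_integrable t H hH)
    (Eventually.of_forall fun x => (om_pos _ _ _).le)

lemma om_c1 (H t : ℝ) : Continuous (fun τ => om τ H t) := by
  have : (fun τ => om τ H t) = om t H := by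
    funext τ
    exact om_symm _ _ _
  rw [this]
  exact om_cont _ _

lemma omI_nonneg (H t : ℝ) {a b : ℝ} (hab : a ≤ b) : 0 ≤ ∫ τ in a..b, om τ H t :=
  intervalIntegral.integral_nonneg hab fun _ _ => (om_pos _ _ _).le

lemma omI_far {H D : ℝ} (hD : 0 ≤ D) (t : ℝ) {a b : ℝ} (hab : a ≤ b)
    (h : ∀ τ ∈ Set.Icc a b, D ≤ |t - τ|) :
    ∫ τ in a..b, om τ H t ≤ (b - a) * Real.exp (-(D ^ 2) / (2 * H ^ 2)) := by
  have h1 : ∫ τ in a..b, om τ H t ≤ ∫ τ in a..b, Real.exp (-(D ^ 2) / (2 * H ^ 2)) := by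
    apply intervalIntegral.integral_mono_on hab ((om_c1 H t).intervalIntegrable _ _)
      (continuous_const.intervalIntegrable _ _)
    intro τ hτ
    unfold om
    apply Real.exp_le_exp.2
    have h2 := h τ hτ
    have h3 : D ^ 2 ≤ (t - τ) ^ 2 := by
      rw [← sq_abs (t - τ)]
      exact pow_le_pow_left₀ hD h2 2
    apply div_le_div_of_nonneg_right _ (by positivity)
    linarith
  refine h1.trans (le_of_eq ?_)
  rw [intervalIntegral.integral_const, smul_eq_mul]

lemma omI_near {H D t a b : ℝ} (hH : 0 < H) (hD : 0 ≤ D) (h1 : a + D ≤ t) (h2 : t ≤ b - D) :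
    Real.sqrt (2 * Real.pi) * H * (1 - 2 * Real.exp (-(D ^ 2) / (4 * H ^ 2))) ≤
      ∫ τ in a..b, om τ H t := by
  have hab : a ≤ b := by linarith
  have hH2 : 0 < Real.sqrt 2 * H := by positivity
  have hs2 : Real.sqrt 2 ≤ 2 := by
    rw [Real.sqrt_le_left (by norm_num)]
    norm_num
  simp_rw [om_symm _ H t]
  rw [intervalIntegral.integral_of_le hab]
  have hi := om_integrable t H hH
  have hi2 := om_integrable t (Real.sqrt 2 * H) hH2
  have e1 := integral_add_compl (measurableSet_Ioc (a := a) (b := b)) hi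
  rw [om_integral t H hH] at e1
  have e2 : ∫ τ in (Set.Ioc a b)ᶜ, om t H τ ≤
      ∫ τ in (Set.Ioc a b)ᶜ, Real.exp (-(D ^ 2) / (4 * H ^ 2)) * om t (Real.sqrt 2 * H) τ := by
    apply setIntegral_mono_on hi.integrableOn (hi2.const_mul _).integrableOn
      measurableSet_Ioc.compl
    intro τ hτ
    unfold om
    rw [← Real.exp_add]
    apply Real.exp_le_exp.2
    have h3 : D ^ 2 ≤ (τ - t) ^ 2 := by
      rw [Set.mem_compl_iff, Set.mem_Ioc, not_and_or, not_lt, not_le] at hτ
      rcases hτ with h | h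
      · nlinarith
      · nlinarith
    rw [mul_pow, Real.sq_sqrt (by norm_num : (0 : ℝ) ≤ 2)]
    have hH' : (0 : ℝ) < H ^ 2 := by positivity
    rw [show 2 * (2 * H ^ 2) = 4 * H ^ 2 by ring, ← add_div, div_le_div_iff₀ (by positivity)
      (by positivity)]
    nlinarith
  have e3 : ∫ τ in (Set.Ioc a b)ᶜ, Real.exp (-(D ^ 2) / (4 * H ^ 2)) * om t (Real.sqrt 2 * H) τ ≤
      Real.exp (-(D ^ 2) / (4 * H ^ 2)) * (Real.sqrt (2 * Real.pi) * (Real.sqrt 2 * H)) := by
    rw [← om_integral t _ hH2, ← integral_const_mul]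
    exact setIntegral_le_integral (hi2.const_mul _)
      (Eventually.of_forall fun x => mul_nonneg (Real.exp_pos _).le (om_pos _ _ _).le)
  have e4 : Real.exp (-(D ^ 2) / (4 * H ^ 2)) * (Real.sqrt (2 * Real.pi) * (Real.sqrt 2 * H)) ≤
      Real.exp (-(D ^ 2) / (4 * H ^ 2)) * (Real.sqrt (2 * Real.pi) * (2 * H)) := by
    gcongr
  nlinarith

lemma prod_int {f : ℝ → ℝ} {a b c d H : ℝ} (hcd : c ≤ d)
    (hf : IntervalIntegrable f volume c d) :
    Integrable (fun z : ℝ × ℝ => om z.1 H z.2 * f z.2)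
      ((volume.restrict (Set.Ioc a b)).prod (volume.restrict (Set.Ioc c d))) := by
  have hf' : Integrable f (volume.restrict (Set.Ioc c d)) := by
    rw [intervalIntegrable_iff_integrableOn_Ioc_of_le hcd] at hf
    exact hf
  have h1 : Integrable (fun z : ℝ × ℝ => (1 : ℝ) * f z.2)
      ((volume.restrict (Set.Ioc a b)).prod (volume.restrict (Set.Ioc c d))) :=
    Integrable.mul_prod (f := fun _ : ℝ => (1 : ℝ)) (integrable_const 1) hf'
  simp only [one_mul] at h1
  have hc : Continuous (fun z : ℝ × ℝ => om z.1 H z.2) := by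
    unfold om
    fun_prop
  refine h1.bdd_mul (c := 1) hc.aestronglyMeasurable (Eventually.of_forall fun z => ?_)
  rw [Real.norm_of_nonneg (om_pos _ _ _).le]
  exact om_le_one _ _ _

lemma swap {f : ℝ → ℝ} {a b c d H : ℝ} (hab : a ≤ b) (hcd : c ≤ d)
    (hf : IntervalIntegrable f volume c d) :
    ∫ τ in a..b, (∫ t in c..d, om τ H t * f t) = ∫ t in c..d, (∫ τ in a..b, om τ H t) * f t := by
  simp_rw [intervalIntegral.integral_of_le hab, intervalIntegral.integral_of_le hcd]
  rw [integral_integral_swap (f := fun τ t => om τ H t * f t) (prod_int hcd hf)]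
  refine integral_congr_ae (Eventually.of_forall fun t => ?_)
  simp only
  rw [integral_mul_const]

lemma swap_int {f : ℝ → ℝ} {a b c d H : ℝ} (hab : a ≤ b) (hcd : c ≤ d)
    (hf : IntervalIntegrable f volume c d) :
    IntervalIntegrable (fun τ => ∫ t in c..d, om τ H t * f t) volume a b := by
  simp_rw [intervalIntegral.integral_of_le hcd]
  rw [intervalIntegrable_iff_integrableOn_Ioc_of_le hab]
  exact (prod_int (H := H) (a := a) (b := b) hcd hf).integral_prod_left

lemma Om_cont (a b H : ℝ) : Continuous (fun t => ∫ τ in a..b, om τ H t) := by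
  apply intervalIntegral.continuous_parametric_intervalIntegral_of_continuous'
  unfold Function.uncurry om
  fun_prop

/-- from the mean over the centres to a sharp cutoff, lower bound -/
lemma lower {f : ℝ → ℝ} (hf : Continuous f) (hf0 : ∀ t, 0 ≤ f t) {M : ℝ} (hM : ∀ t, f t ≤ M)
    {Z : Finset ℂ} {m : ℂ → ℝ} (hm : ∀ s, 0 ≤ m s) {h H D a b c d B : ℝ} (hH : 0 < H)
    (hD : 0 ≤ D) (hab : a ≤ b) (hca : c ≤ a - D) (hbd : b + D ≤ d)
    (hB : ∀ τ ∈ Set.Icc a b, B ≤ ∫ t in c..d, om τ H t * (f t * cnt Z m h t)) :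
    (b - a) * B ≤ Real.sqrt (2 * Real.pi) * H * (∫ t in (a - D)..(b + D), f t * cnt Z m h t) +
      (b - a) * (Real.exp (-(D ^ 2) / (2 * H ^ 2)) * ((d - c) * (M * ∑ s ∈ Z, m s))) := by
  have hcd : c ≤ d := by linarith
  have hM0 : 0 ≤ M := (hf0 0).trans (hM 0)
  have hS0 : 0 ≤ ∑ s ∈ Z, m s := Finset.sum_nonneg fun s _ => hm s
  set g : ℝ → ℝ := fun t => f t * cnt Z m h t with hg
  have gi : ∀ x y, IntervalIntegrable g volume x y := fun x y => cnt_int hf Z m h x y
  have g0 : ∀ t, 0 ≤ g t := fun t => mul_nonneg (hf0 t) (cnt_nonneg hm h t)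
  have gM : ∀ t, g t ≤ M * ∑ s ∈ Z, m s := fun t =>
    mul_le_mul (hM t) (cnt_le hm h t) (cnt_nonneg hm h t) hM0
  have h1 : (b - a) * B ≤ ∫ τ in a..b, (∫ t in c..d, om τ H t * g t) := by
    have : (b - a) * B = ∫ τ in a..b, B := by
      rw [intervalIntegral.integral_const, smul_eq_mul]
    rw [this]
    exact intervalIntegral.integral_mono_on hab (continuous_const.intervalIntegrable _ _)
      (swap_int hab hcd (gi c d)) hB
  rw [swap hab hcd (gi c d)] at h1
  set Ω : ℝ → ℝ := fun t => ∫ τ in a..b, om τ H t with hΩ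
  have Ωc : Continuous Ω := Om_cont a b H
  have Ωg : ∀ x y, IntervalIntegrable (fun t => Ω t * g t) volume x y := fun x y =>
    (gi x y).continuousOn_mul Ωc.continuousOn
  have e1 := intervalIntegral.integral_add_adjacent_intervals (Ωg c (a - D)) (Ωg (a - D) (b + D))
  have e2 := intervalIntegral.integral_add_adjacent_intervals (Ωg c (b + D)) (Ωg (b + D) d)
  have hE : ∀ x y, x ≤ y → (∀ t ∈ Set.Icc x y, ∀ τ ∈ Set.Icc a b, D ≤ |t - τ|) →
      ∫ t in x..y, Ω t * g t ≤ (y - x) * ((b - a) * Real.exp (-(D ^ 2) / (2 * H ^ 2)) *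
        (M * ∑ s ∈ Z, m s)) := by
    intro x y hxy hfar
    have : (y - x) * ((b - a) * Real.exp (-(D ^ 2) / (2 * H ^ 2)) *
        (M * ∑ s ∈ Z, m s)) = ∫ t in x..y, ((b - a) * Real.exp (-(D ^ 2) / (2 * H ^ 2)) *
        (M * ∑ s ∈ Z, m s)) := by
      rw [intervalIntegral.integral_const, smul_eq_mul]
    rw [this]
    apply intervalIntegral.integral_mono_on hxy (Ωg x y) (continuous_const.intervalIntegrable _ _)
    intro t ht
    exact mul_le_mul (omI_far hD t hab (hfar t ht)) (gM t) (g0 t)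
      (mul_nonneg (by linarith) (Real.exp_pos _).le)
  have f1 := hE c (a - D) hca (fun t ht τ hτ => by
    rw [abs_sub_comm]
    exact le_trans (by linarith [ht.2, hτ.1]) (le_abs_self _))
  have f2 := hE (b + D) d hbd (fun t ht τ hτ => le_trans (by linarith [ht.1, hτ.2]) (le_abs_self _))
  have f3 : ∫ t in (a - D)..(b + D), Ω t * g t ≤
      Real.sqrt (2 * Real.pi) * H * (∫ t in (a - D)..(b + D), g t) := by
    rw [← intervalIntegral.integral_const_mul]
    apply intervalIntegral.integral_mono_on (by linarith) (Ωg _ _) ((gi _ _).const_mul _)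
    intro t _
    exact mul_le_mul_of_nonneg_right (omI_le hH t hab) (g0 t)
  have f4 : 0 ≤ (b - a) * (Real.exp (-(D ^ 2) / (2 * H ^ 2)) * (M * ∑ s ∈ Z, m s)) := by
    have : 0 ≤ b - a := by linarith
    positivity
  have f5 : ((a - D - c) + (d - (b + D))) * ((b - a) * (Real.exp (-(D ^ 2) / (2 * H ^ 2)) *
      (M * ∑ s ∈ Z, m s))) ≤ (d - c) * ((b - a) * (Real.exp (-(D ^ 2) / (2 * H ^ 2)) *
      (M * ∑ s ∈ Z, m s))) := by
    apply mul_le_mul_of_nonneg_right _ f4
    linarith
  have e3 : ∫ t in c..d, Ω t * g t = (∫ t in c..(a - D), Ω t * g t) +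
      (∫ t in (a - D)..(b + D), Ω t * g t) + ∫ t in (b + D)..d, Ω t * g t := by
    rw [← e2, ← e1]
  have h1' : (b - a) * B ≤ ∫ t in c..d, Ω t * g t := h1
  rw [e3] at h1'
  nlinarith

/-- the same, upper bound -/
lemma upper {f : ℝ → ℝ} (hf : Continuous f) (hf0 : ∀ t, 0 ≤ f t)
    {Z : Finset ℂ} {m : ℂ → ℝ} (hm : ∀ s, 0 ≤ m s) {h H D a b c d B : ℝ} (hH : 0 < H)
    (hD : 0 ≤ D) (hab : a + D ≤ b - D) (hca : c ≤ a + D) (hbd : b - D ≤ d)
    (hB : ∀ τ ∈ Set.Icc a b, ∫ t in c..d, om τ H t * (f t * cnt Z m h t) ≤ B) :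
    Real.sqrt (2 * Real.pi) * H * (1 - 2 * Real.exp (-(D ^ 2) / (4 * H ^ 2))) *
      (∫ t in (a + D)..(b - D), f t * cnt Z m h t) ≤ (b - a) * B := by
  have hab' : a ≤ b := by linarith
  have hcd : c ≤ d := by linarith
  set g : ℝ → ℝ := fun t => f t * cnt Z m h t with hg
  have gi : ∀ x y, IntervalIntegrable g volume x y := fun x y => cnt_int hf Z m h x y
  have g0 : ∀ t, 0 ≤ g t := fun t => mul_nonneg (hf0 t) (cnt_nonneg hm h t)
  have h1 : ∫ τ in a..b, (∫ t in c..d, om τ H t * g t) ≤ (b - a) * B := by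
    have : (b - a) * B = ∫ τ in a..b, B := by
      rw [intervalIntegral.integral_const, smul_eq_mul]
    rw [this]
    exact intervalIntegral.integral_mono_on hab' (swap_int hab' hcd (gi c d))
      (continuous_const.intervalIntegrable _ _) hB
  rw [swap hab' hcd (gi c d)] at h1
  set Ω : ℝ → ℝ := fun t => ∫ τ in a..b, om τ H t with hΩ
  have Ωc : Continuous Ω := Om_cont a b H
  have Ωg : ∀ x y, IntervalIntegrable (fun t => Ω t * g t) volume x y := fun x y =>
    (gi x y).continuousOn_mul Ωc.continuousOn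
  have Ω0 : ∀ t, 0 ≤ Ω t := fun t => omI_nonneg H t hab'
  have e1 := intervalIntegral.integral_add_adjacent_intervals (Ωg c (a + D)) (Ωg (a + D) (b - D))
  have e2 := intervalIntegral.integral_add_adjacent_intervals (Ωg c (b - D)) (Ωg (b - D) d)
  have f1 : 0 ≤ ∫ t in c..(a + D), Ω t * g t :=
    intervalIntegral.integral_nonneg hca fun t _ => mul_nonneg (Ω0 t) (g0 t)
  have f2 : 0 ≤ ∫ t in (b - D)..d, Ω t * g t :=
    intervalIntegral.integral_nonneg hbd fun t _ => mul_nonneg (Ω0 t) (g0 t)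
  have f3 : Real.sqrt (2 * Real.pi) * H * (1 - 2 * Real.exp (-(D ^ 2) / (4 * H ^ 2))) *
      (∫ t in (a + D)..(b - D), g t) ≤ ∫ t in (a + D)..(b - D), Ω t * g t := by
    rw [← intervalIntegral.integral_const_mul]
    apply intervalIntegral.integral_mono_on hab ((gi _ _).const_mul _) (Ωg _ _)
    intro t ht
    exact mul_le_mul_of_nonneg_right (omI_near hH hD ht.1 ht.2) (g0 t)
  have h1' : ∫ t in c..d, Ω t * g t ≤ (b - a) * B := h1
  linarith

/-- the sum over the points dominates the integral -/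
lemma pts_lower {f : ℝ → ℝ} (hf : Continuous f) (hf0 : ∀ t, 0 ≤ f t) {Z Z' : Finset ℂ}
    {m : ℂ → ℝ} (hm : ∀ s, 0 ≤ m s) {h h1 a b : ℝ} (hab : a ≤ b) (hh : h1 ≤ h) (hh0 : 0 ≤ h)
    (hZ : ∀ s ∈ Z, a - h1 ≤ s.im → s.im ≤ b + h1 → s ∈ Z') :
    ∫ t in a..b, f t * cnt Z m h1 t ≤ ∑ s ∈ Z', m s * ∫ t in (s.im - h)..(s.im + h), f t := by
  have h2 : ∫ t in a..b, f t * cnt Z m h1 t ≤ ∫ t in a..b, f t * cnt Z' m h t := by
    apply intervalIntegral.integral_mono_on hab (cnt_int hf _ _ _ _ _) (cnt_int hf _ _ _ _ _)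
    intro t ht
    apply mul_le_mul_of_nonneg_left _ (hf0 t)
    unfold cnt
    have h3 : ∑ s ∈ Z, m s * (if |s.im - t| ≤ h1 then (1 : ℝ) else 0) =
        ∑ s ∈ Z.filter (fun s => |s.im - t| ≤ h1), m s := by
      rw [Finset.sum_filter]
      refine Finset.sum_congr rfl fun s _ => ?_
      split_ifs <;> simp
    have h4 : ∑ s ∈ Z', m s * (if |s.im - t| ≤ h then (1 : ℝ) else 0) =
        ∑ s ∈ Z'.filter (fun s => |s.im - t| ≤ h), m s := by
      rw [Finset.sum_filter]
      refine Finset.sum_congr rfl fun s _ => ?_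
      split_ifs <;> simp
    rw [h3, h4]
    apply Finset.sum_le_sum_of_subset_of_nonneg
    · intro s hs
      rw [Finset.mem_filter] at hs ⊢
      have h5 := abs_le.1 hs.2
      exact ⟨hZ s hs.1 (by linarith [h5.1, ht.1]) (by linarith [h5.2, ht.2]), hs.2.trans hh⟩
    · intro s _ _
      exact hm s
  refine h2.trans ?_
  unfold cnt
  simp_rw [Finset.mul_sum]
  rw [intervalIntegral.integral_finsetSum (fun s _ => ind_int hf _ _ _ _ _)]
  refine Finset.sum_le_sum fun s _ => ?_
  have hmeas : MeasurableSet (Set.Icc (s.im - h) (s.im + h)) := measurableSet_Icc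
  have hint : Integrable ((Set.Icc (s.im - h) (s.im + h)).indicator (fun t => f t * m s)) := by
    rw [integrable_indicator_iff hmeas]
    exact (hf.mul continuous_const).continuousOn.integrableOn_Icc
  have e1 : ∀ t, f t * (m s * (if |s.im - t| ≤ h then (1 : ℝ) else 0)) =
      (Set.Icc (s.im - h) (s.im + h)).indicator (fun t => f t * m s) t := by
    intro t
    by_cases h6 : |s.im - t| ≤ h
    · have h7 := abs_le.1 h6
      have h8 : t ∈ Set.Icc (s.im - h) (s.im + h) := ⟨by linarith [h7.2], by linarith [h7.1]⟩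
      rw [if_pos h6, Set.indicator_of_mem h8, mul_one]
    · rw [if_neg h6, mul_zero, mul_zero, Set.indicator_of_notMem]
      intro h8
      exact h6 (abs_le.2 ⟨by linarith [h8.2], by linarith [h8.1]⟩)
  simp_rw [e1]
  rw [intervalIntegral.integral_of_le hab]
  calc ∫ t in Set.Ioc a b, (Set.Icc (s.im - h) (s.im + h)).indicator (fun t => f t * m s) t ≤
      ∫ t, (Set.Icc (s.im - h) (s.im + h)).indicator (fun t => f t * m s) t := by
        apply setIntegral_le_integral hint
        exact Eventually.of_forall fun t => Set.indicator_nonneg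
          (fun t _ => mul_nonneg (hf0 t) (hm s)) t
    _ = m s * ∫ t in (s.im - h)..(s.im + h), f t := by
        rw [integral_indicator hmeas, integral_mul_const, integral_Icc_eq_integral_Ioc,
          ← intervalIntegral.integral_of_le (by linarith), mul_comm]

/-- the integral dominates the sum over the points -/
lemma pts_upper {f : ℝ → ℝ} (hf : Continuous f) (hf0 : ∀ t, 0 ≤ f t) {Z Z' : Finset ℂ}
    {m : ℂ → ℝ} (hm : ∀ s, 0 ≤ m s) {h h2 a b : ℝ} (hab : a ≤ b) (hh : h ≤ h2) (hh0 : 0 ≤ h)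
    (hZ : Z' ⊆ Z) (hZ' : ∀ s ∈ Z', a ≤ s.im - h ∧ s.im + h ≤ b) :
    ∑ s ∈ Z', m s * (∫ t in (s.im - h)..(s.im + h), f t) ≤ ∫ t in a..b, f t * cnt Z m h2 t := by
  have h3 : ∫ t in a..b, f t * cnt Z' m h t ≤ ∫ t in a..b, f t * cnt Z m h2 t := by
    apply intervalIntegral.integral_mono_on hab (cnt_int hf _ _ _ _ _) (cnt_int hf _ _ _ _ _)
    intro t ht
    apply mul_le_mul_of_nonneg_left _ (hf0 t)
    unfold cnt
    calc ∑ s ∈ Z', m s * (if |s.im - t| ≤ h then (1 : ℝ) else 0) ≤
        ∑ s ∈ Z', m s * (if |s.im - t| ≤ h2 then (1 : ℝ) else 0) := by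
          refine Finset.sum_le_sum fun s _ => mul_le_mul_of_nonneg_left ?_ (hm s)
          by_cases h6 : |s.im - t| ≤ h
          · rw [if_pos h6, if_pos (h6.trans hh)]
          · rw [if_neg h6]
            split_ifs <;> norm_num
      _ ≤ _ := by
          apply Finset.sum_le_sum_of_subset_of_nonneg hZ
          intro s _ _
          refine mul_nonneg (hm s) ?_
          split_ifs <;> norm_num
  refine le_trans (le_of_eq ?_) h3
  unfold cnt
  simp_rw [Finset.mul_sum]
  rw [intervalIntegral.integral_finsetSum (fun s _ => ind_int hf _ _ _ _ _)]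
  refine Finset.sum_congr rfl fun s hs => ?_
  obtain ⟨k1, k2⟩ := hZ' s hs
  have e1 : ∀ t, f t * (m s * (if |s.im - t| ≤ h then (1 : ℝ) else 0)) =
      (Set.Icc (s.im - h) (s.im + h)).indicator (fun t => f t * m s) t := by
    intro t
    by_cases h6 : |s.im - t| ≤ h
    · have h7 := abs_le.1 h6
      have h8 : t ∈ Set.Icc (s.im - h) (s.im + h) := ⟨by linarith [h7.2], by linarith [h7.1]⟩
      rw [if_pos h6, Set.indicator_of_mem h8, mul_one]
    · rw [if_neg h6, mul_zero, mul_zero, Set.indicator_of_notMem]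
      intro h8
      exact h6 (abs_le.2 ⟨by linarith [h8.2], by linarith [h8.1]⟩)
  simp_rw [e1]
  rw [intervalIntegral.integral_of_le hab, ← integral_Icc_eq_integral_Ioc,
    setIntegral_indicator measurableSet_Icc,
    Set.inter_eq_self_of_subset_right (Set.Icc_subset_Icc k1 k2), integral_mul_const,
    integral_Icc_eq_integral_Ioc, ← intervalIntegral.integral_of_le (by linarith), mul_comm]

end Pool.Agent.N845.U2
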