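import Mathlib

/-! Large `T`. -/

open Filter Topology Set Real

namespace Pool.Agent.N845.U2

lemma log_nine : -(1 / 5 : ℝ) ≤ Real.log (9 / 10) := by
  have h := Real.one_sub_inv_le_log_of_pos (show (0 : ℝ) < 9 / 10 by norm_num)
  have : (1 : ℝ) - (9 / 10)⁻¹ = -(1 / 9) := by norm_num
  rw [this] at h
  linarith

lemma ev {δ κ c C T1 : ℝ} (hδ : 0 < δ) (hδ1 : δ ≤ 1 / 2) (hκ : 0 < κ) (hc : 0 < c) (hC : 0 < C) :
    ∀ᶠ T : ℝ in atTop, (10 ≤ T ∧ T1 ≤ 9 / 10 * T) ∧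
    ((1 - κ) * Real.log T ≤ Real.log (9 / 10 * T) ∧ Real.log (9 / 10 * T) ≤ Real.log T) ∧
    (1 ≤ Real.log (Real.log (9 / 10 * T)) ∧
      (1 - κ / 2) * Real.log (Real.log T) ≤ Real.log (Real.log (9 / 10 * T)) ∧
      Real.log (Real.log (9 / 10 * T)) ≤ Real.log (Real.log T)) ∧
    T ^ (δ / 4) ≤ (9 / 10 * T) ^ δ ∧
    (9 / 10 * T) ^ (1 - δ) * Real.log (9 / 10 * T) ≤ κ * T ^ (1 - δ / 4) ∧
    Real.log (9 / 10 * T) ≤ T / 100 ∧
    2 * Real.exp (-(Real.log (9 / 10 * T)) ^ 2 / 4) ≤ κ ∧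
    C * T ^ 5 * Real.exp (-(Real.log (9 / 10 * T)) ^ 2 / 2) ≤ κ * (c / 4) ∧
    2 < κ * T ^ (1 / 2 : ℝ) := by
  have hlog := Real.tendsto_log_atTop
  have hloglog : Tendsto (fun T : ℝ => Real.log (Real.log T)) atTop atTop := hlog.comp hlog
  have hT1 : ∀ᶠ T : ℝ in atTop, max (10 : ℝ) (10 / 9 * T1) ≤ T := eventually_ge_atTop _
  have hL : ∀ᶠ T : ℝ in atTop, max (max 64 (1 / κ)) (max (8 / κ) (C / (κ * (c / 4)))) ≤ Real.log T :=
    hlog.eventually_ge_atTop _
  have hl : ∀ᶠ T : ℝ in atTop, max 2 (2 / κ) ≤ Real.log (Real.log T) :=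
    hloglog.eventually_ge_atTop _
  have hlo : ∀ᶠ T : ℝ in atTop, ‖Real.log T‖ ≤ κ * ‖T ^ (δ / 2)‖ :=
    (isLittleO_log_rpow_atTop (by positivity : 0 < δ / 2)).def hκ
  have hlo2 : ∀ᶠ T : ℝ in atTop, ‖Real.log T‖ ≤ 1 / 100 * ‖T ^ (1 : ℝ)‖ :=
    (isLittleO_log_rpow_atTop one_pos).def (by norm_num)
  have hsq : ∀ᶠ T : ℝ in atTop, 2 / κ < T ^ (1 / 2 : ℝ) :=
    (tendsto_rpow_atTop (by norm_num : (0 : ℝ) < 1 / 2)).eventually_gt_atTop _
  filter_upwards [hT1, hL, hl, hlo, hlo2, hsq] with T h1 h2 h3 h4 h5 h6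
  have a1 : (10 : ℝ) ≤ T := (le_max_left _ _).trans h1
  have a2 : 10 / 9 * T1 ≤ T := (le_max_right _ _).trans h1
  have hT0 : (0 : ℝ) < T := by linarith
  have b1 : (64 : ℝ) ≤ Real.log T := ((le_max_left _ _).trans (le_max_left _ _)).trans h2
  have b2 : 1 / κ ≤ Real.log T := ((le_max_right _ _).trans (le_max_left _ _)).trans h2
  have b3 : 8 / κ ≤ Real.log T := ((le_max_left _ _).trans (le_max_right _ _)).trans h2
  have b4 : C / (κ * (c / 4)) ≤ Real.log T := ((le_max_right _ _).trans (le_max_right _ _)).trans h2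
  have c1 : (2 : ℝ) ≤ Real.log (Real.log T) := (le_max_left _ _).trans h3
  have c2 : 2 / κ ≤ Real.log (Real.log T) := (le_max_right _ _).trans h3
  set L := Real.log T with hLdef
  set L' := Real.log (9 / 10 * T) with hL'def
  have hL' : L' = L + Real.log (9 / 10) := by
    rw [hL'def, Real.log_mul (by norm_num) hT0.ne', add_comm]
  have hln := log_nine
  have hln0 : Real.log (9 / 10) ≤ 0 := Real.log_nonpos (by norm_num) (by norm_num)
  have hb2 : 1 ≤ κ * L := by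
    rw [div_le_iff₀ hκ] at b2
    linarith
  have hLL : L / 2 ≤ L' := by rw [hL']; linarith
  have hLL' : L' ≤ L := by rw [hL']; linarith
  have hL0 : 0 < L := by linarith
  have hL'0 : 0 < L' := by linarith
  have hll : Real.log L - 1 ≤ Real.log L' := by
    have h7 := Real.log_le_log (by linarith : 0 < L / 2) hLL
    rw [Real.log_div hL0.ne' (by norm_num)] at h7
    have h8 : Real.log 2 ≤ 1 := by
      have := Real.log_two_lt_d9
      linarith
    linarith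
  have hLsq : Real.exp (-L' ^ 2 / 2) ≤ Real.exp (-(6 * L)) := by
    apply Real.exp_le_exp.2
    nlinarith
  have hLsq4 : Real.exp (-L' ^ 2 / 4) ≤ Real.exp (-L) := by
    apply Real.exp_le_exp.2
    nlinarith
  have hexpL : Real.exp L = T := Real.exp_log hT0
  have hLT : L ≤ T := by
    have := Real.add_one_le_exp L
    rw [hexpL] at this
    linarith
  refine ⟨⟨a1, by linarith⟩, ⟨?_, hLL'⟩, ⟨by linarith, ?_, Real.log_le_log hL'0 hLL'⟩, ?_, ?_, ?_, ?_,
    ?_, ?_⟩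
  · rw [hL']; nlinarith
  · have : 2 ≤ κ * Real.log L := by
      rw [div_le_iff₀ hκ] at c2
      linarith
    nlinarith
  · have hs : T ^ (1 / 2 : ℝ) ≤ 9 / 10 * T := by
      rw [← Real.sqrt_eq_rpow, Real.sqrt_le_left (by positivity)]
      nlinarith
    calc T ^ (δ / 4) ≤ T ^ (1 / 2 * δ) :=
          Real.rpow_le_rpow_of_exponent_le (by linarith) (by linarith)
      _ = (T ^ (1 / 2 : ℝ)) ^ δ := by rw [Real.rpow_mul hT0.le]
      _ ≤ (9 / 10 * T) ^ δ := Real.rpow_le_rpow (by positivity) hs hδ.le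
  · have k1 : (9 / 10 * T) ^ (1 - δ) ≤ T ^ (1 - δ) :=
      Real.rpow_le_rpow (by positivity) (by linarith) (by linarith)
    rw [Real.norm_of_nonneg hL0.le, Real.norm_of_nonneg (by positivity)] at h4
    calc (9 / 10 * T) ^ (1 - δ) * L' ≤ T ^ (1 - δ) * L := by gcongr
      _ ≤ T ^ (1 - δ) * (κ * T ^ (δ / 2)) := by gcongr
      _ = κ * (T ^ (1 - δ) * T ^ (δ / 2)) := by ring
      _ = κ * T ^ (1 - δ + δ / 2) := by rw [Real.rpow_add hT0]
      _ ≤ κ * T ^ (1 - δ / 4) := by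
          apply mul_le_mul_of_nonneg_left _ hκ.le
          exact Real.rpow_le_rpow_of_exponent_le (by linarith) (by linarith)
  · rw [Real.norm_of_nonneg hL0.le, Real.rpow_one, Real.norm_of_nonneg hT0.le] at h5
    linarith
  · have k2 : Real.exp (-L) ≤ 1 / L := by
      rw [Real.exp_neg, hexpL, ← one_div]
      exact one_div_le_one_div_of_le hL0 hLT
    have k3 : 1 / L ≤ κ / 8 := by
      rw [div_le_iff₀ hκ] at b3
      rw [div_le_div_iff₀ hL0 (by norm_num)]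
      linarith
    linarith
  · have k4 : Real.exp (-(6 * L)) = (T ^ 6)⁻¹ := by
      rw [Real.exp_neg, show 6 * L = (6 : ℕ) * L by norm_num, Real.exp_nat_mul, hexpL]
    have hcp : 0 < κ * (c / 4) := by positivity
    calc C * T ^ 5 * Real.exp (-L' ^ 2 / 2) ≤ C * T ^ 5 * (T ^ 6)⁻¹ := by
          rw [← k4]
          gcongr
      _ = C * (T ^ 5 / T ^ 6) := by rw [mul_assoc, ← div_eq_mul_inv]
      _ = C / T := by
          rw [show T ^ 5 / T ^ 6 = 1 / T by
            rw [div_eq_div_iff (pow_ne_zero 6 hT0.ne') hT0.ne', one_mul, ← pow_succ]]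
          rw [mul_one_div]
      _ ≤ C / L := div_le_div_of_nonneg_left hC.le hL0 hLT
      _ ≤ κ * (c / 4) := by
          rw [div_le_iff₀ hcp] at b4
          rw [div_le_iff₀ hL0]
          linarith
  · rw [div_lt_iff₀ hκ] at h6
    linarith

end Pool.Agent.N845.U2
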